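import Pool.Agent.PLM.Final

/-!
# Lattice points and successive minima (MP_98df5b_co)

The Betke-Henk-Wills inequality in dimension four (and below), and in every dimension under a
condition on the consecutive pairs of minima between the third and the last but one.
-/

set_option autoImplicit false
open scoped Pointwise

namespace Pool.Agent.Results.MP_98df5b_co.DimensionFour

/-- the lattice generated by a basis `b` of `ℝ^d` -/
def lattice {d : ℕ} (b : Module.Basis (Fin d) ℝ (EuclideanSpace ℝ (Fin d))) :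
    Set (EuclideanSpace ℝ (Fin d)) :=
  (Submodule.span ℤ (Set.range b) : Set (EuclideanSpace ℝ (Fin d)))

/-- the successive minima of `K` with respect to `L` (indices `0, …, d-1`): the infimum of the
`t > 0` for which `t K` contains `i + 1` linearly independent points of `L` -/
noncomputable def minima {d : ℕ} (K L : Set (EuclideanSpace ℝ (Fin d))) (i : Fin d) : ℝ :=
  sInf {t : ℝ | 0 < t ∧ i.val + 1 ≤ Module.finrank ℝ (Submodule.span ℝ ((t • K) ∩ L))}

private theorem general (d : ℕ) (b : Module.Basis (Fin d) ℝ (EuclideanSpace ℝ (Fin d)))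
    (K : Set (EuclideanSpace ℝ (Fin d)))
    (hconv : Convex ℝ K) (hcomp : IsCompact K) (hint : (interior K).Nonempty)
    (hsymm : ∀ x ∈ K, -x ∈ K)
    (n : Fin d → ℕ) (hn : ∀ i : Fin d, ⌊2 / minima K (lattice b) i + 1⌋ ≤ (n i : ℤ))
    (hsep : ∀ i j : Fin d, j.val = i.val + 1 → j.val + 1 < d →
      n j ∣ n i ∨ (i.val + 1) * n j ≤ n i ∨ (i.val + 1 = 2 ∧ n j ≤ n i)) :
    (K ∩ lattice b).ncard ≤ ∏ i : Fin d, n i := by
  apply Pool.Agent.PLMF.sep_bound3 b K hconv hcomp hint hsymm n _ hsep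
  intro i
  have hpos := Pool.Agent.Helper85.BHW.lam_pos b K hconv hcomp hint hsymm i
  have e : minima K (lattice b) i = Pool.Agent.Helper85.BHW.lam b K i := rfl
  have hni := hn i
  rw [e] at hni
  have h1 : (2 / Pool.Agent.Helper85.BHW.lam b K i + 1) < (n i : ℝ) + 1 := by
    have h2 := Int.lt_floor_add_one (2 / Pool.Agent.Helper85.BHW.lam b K i + 1)
    have h3 : ((⌊2 / Pool.Agent.Helper85.BHW.lam b K i + 1⌋ : ℤ) : ℝ) ≤ (n i : ℝ) := by
      exact_mod_cast hni
    linarith
  have h4 : 2 / Pool.Agent.Helper85.BHW.lam b K i < n i := by linarith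
  rwa [div_lt_iff₀ hpos] at h4

/-- Let `K` be an origin-symmetric convex body in `ℝ^d`, `L` a lattice and `lam i`
(`i = 0, …, d-1`) the successive minima of `K` with respect to `L`.
(1) If `d ≤ 4` then `#(K ∩ L) ≤ ∏ i, ⌊2 / lam i + 1⌋`.
(2) For every `d`: let `n i` be natural numbers with `n i ≥ ⌊2 / lam i + 1⌋` such that for any two
consecutive indices `i`, `j = i + 1`, where `j` is not the last index, `n j` divides `n i`, or
`(i + 1) * n j ≤ n i`, or `i = 1` and `n j ≤ n i`. Then `#(K ∩ L) ≤ ∏ i, n i`. -/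
theorem result :
    (∀ (d : ℕ) (b : Module.Basis (Fin d) ℝ (EuclideanSpace ℝ (Fin d)))
      (K : Set (EuclideanSpace ℝ (Fin d))), d ≤ 4 →
      Convex ℝ K → IsCompact K → (interior K).Nonempty → (∀ x ∈ K, -x ∈ K) →
      ((K ∩ lattice b).ncard : ℤ) ≤ ∏ i : Fin d, ⌊2 / minima K (lattice b) i + 1⌋) ∧
    (∀ (d : ℕ) (b : Module.Basis (Fin d) ℝ (EuclideanSpace ℝ (Fin d)))
      (K : Set (EuclideanSpace ℝ (Fin d))),
      Convex ℝ K → IsCompact K → (interior K).Nonempty → (∀ x ∈ K, -x ∈ K) →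
      ∀ n : Fin d → ℕ, (∀ i : Fin d, ⌊2 / minima K (lattice b) i + 1⌋ ≤ (n i : ℤ)) →
      (∀ i j : Fin d, j.val = i.val + 1 → j.val + 1 < d →
        n j ∣ n i ∨ (i.val + 1) * n j ≤ n i ∨ (i.val = 1 ∧ n j ≤ n i)) →
      (K ∩ lattice b).ncard ≤ ∏ i : Fin d, n i) := by
  have h2 : (∀ (d : ℕ) (b : Module.Basis (Fin d) ℝ (EuclideanSpace ℝ (Fin d)))
      (K : Set (EuclideanSpace ℝ (Fin d))),
      Convex ℝ K → IsCompact K → (interior K).Nonempty → (∀ x ∈ K, -x ∈ K) →
      ∀ n : Fin d → ℕ, (∀ i : Fin d, ⌊2 / minima K (lattice b) i + 1⌋ ≤ (n i : ℤ)) →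
      (∀ i j : Fin d, j.val = i.val + 1 → j.val + 1 < d →
        n j ∣ n i ∨ (i.val + 1) * n j ≤ n i ∨ (i.val = 1 ∧ n j ≤ n i)) →
      (K ∩ lattice b).ncard ≤ ∏ i : Fin d, n i) := by
    intro d b K hconv hcomp hint hsymm n hn hsep
    refine general d b K hconv hcomp hint hsymm n hn ?_
    intro i j hij hj
    rcases hsep i j hij hj with h | h | h
    · exact Or.inl h
    · exact Or.inr (Or.inl h)
    · exact Or.inr (Or.inr ⟨by omega, h.2⟩)
  refine ⟨?_, h2⟩
  intro d b K hd hconv hcomp hint hsymm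
  have hpos : ∀ i, 0 < minima K (lattice b) i :=
    Pool.Agent.Helper85.BHW.lam_pos b K hconv hcomp hint hsymm
  have hmono : ∀ i j, i ≤ j → minima K (lattice b) i ≤ minima K (lattice b) j :=
    fun i j hij => Pool.Agent.Helper85.BHW.lam_mono b K hconv hint hsymm hij
  have hfl : ∀ i, 0 ≤ ⌊2 / minima K (lattice b) i + 1⌋ := by
    intro i
    apply Int.floor_nonneg.2
    have := div_pos two_pos (hpos i)
    linarith
  have hanti : ∀ i j, i ≤ j →
      ⌊2 / minima K (lattice b) j + 1⌋.toNat ≤ ⌊2 / minima K (lattice b) i + 1⌋.toNat := by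
    intro i j hij
    apply Int.toNat_le_toNat
    apply Int.floor_le_floor
    have := div_le_div_of_nonneg_left two_pos.le (hpos i) (hmono i j hij)
    linarith
  have h := h2 d b K hconv hcomp hint hsymm
    (fun i => ⌊2 / minima K (lattice b) i + 1⌋.toNat) (fun i => Int.self_le_toNat _) (by
      intro i j hij hj
      have h4 := hanti i j (by
        show i.val ≤ j.val
        omega)
      by_cases h0 : i.val = 0
      · right; left
        rw [h0]
        simpa using h4
      · right; right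
        exact ⟨by omega, h4⟩)
  have h5 : ((K ∩ lattice b).ncard : ℤ) ≤
      ((∏ i : Fin d, ⌊2 / minima K (lattice b) i + 1⌋.toNat : ℕ) : ℤ) := by
    exact_mod_cast h
  rw [Nat.cast_prod] at h5
  refine h5.trans (le_of_eq (Finset.prod_congr rfl fun i _ => ?_))
  exact Int.toNat_of_nonneg (hfl i)

end Pool.Agent.Results.MP_98df5b_co.DimensionFour
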