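import Pool.Agent.Helper61.WBH.Final

/-!
# Lattice points and successive minima (MP_98df5b_co)

The floor-free Betke-Henk-Wills inequality in every dimension.
-/

set_option autoImplicit false
open scoped Pointwise

namespace Pool.Agent.Results.MP_98df5b_co.FloorFreeBound

/-- the lattice generated by a basis `b` of `ℝ^d` -/
def lattice {d : ℕ} (b : Module.Basis (Fin d) ℝ (EuclideanSpace ℝ (Fin d))) :
    Set (EuclideanSpace ℝ (Fin d)) :=
  (Submodule.span ℤ (Set.range b) : Set (EuclideanSpace ℝ (Fin d)))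

/-- the successive minima of `K` with respect to `L` (indices `0, …, d-1`): the infimum of the
`t > 0` for which `t K` contains `i + 1` linearly independent points of `L` -/
noncomputable def minima {d : ℕ} (K L : Set (EuclideanSpace ℝ (Fin d))) (i : Fin d) : ℝ :=
  sInf {t : ℝ | 0 < t ∧ i.val + 1 ≤ Module.finrank ℝ (Submodule.span ℝ ((t • K) ∩ L))}

/-- Let `K` be an origin-symmetric convex body in `ℝ^d`, `L` a lattice, `lam i` the successive
minima of `K` with respect to `L` and `G = #(K ∩ L)`. Then `G ≤ ∏_{i : lam i ≤ 1} (1 + 2 / lam i)`,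
and if `2 / lam i` is an integer for every `i` with `lam i ≤ 1`, then
`G ≤ ∏_i ⌊2 / lam i + 1⌋`. -/
theorem result (d : ℕ) (b : Module.Basis (Fin d) ℝ (EuclideanSpace ℝ (Fin d)))
    (K : Set (EuclideanSpace ℝ (Fin d)))
    (hconv : Convex ℝ K) (hcomp : IsCompact K) (hint : (interior K).Nonempty)
    (hsymm : ∀ x ∈ K, -x ∈ K) (lam : Fin d → ℝ) (hlam : lam = minima K (lattice b)) :
    ((K ∩ lattice b).ncard : ℝ) ≤ ∏ i with lam i ≤ 1, (1 + 2 / lam i) ∧
    ((∀ i, lam i ≤ 1 → ∃ n : ℤ, 2 / lam i = n) →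
      ((K ∩ lattice b).ncard : ℝ) ≤ ∏ i, (⌊2 / lam i + 1⌋ : ℝ)) := by
  have hl : lam = Pool.Agent.Helper85.BHW.lam b K := by
    rw [hlam]
    rfl
  rw [hl]
  exact ⟨Pool.Agent.Helper61.WBH.sym_bound b K hconv hcomp hint hsymm,
    Pool.Agent.Helper61.WBH.int_bound b K hconv hcomp hint hsymm⟩

end Pool.Agent.Results.MP_98df5b_co.FloorFreeBound
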