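import Pool.Agent.SMG.End
import Pool.Agent.SMG.Gen

/-!
# Lattice points and successive minima (MP_98df5b_co)

The Betke-Henk-Wills inequality in every dimension for bodies whose distinct floors are separated
by additive gaps, and for all large dilates of every body.
-/

set_option autoImplicit false
open scoped Pointwise

namespace Pool.Agent.Results.MP_98df5b_co.LargeDilates

/-- the lattice generated by a basis `b` of `ℝ^d` -/
def lattice {d : ℕ} (b : Module.Basis (Fin d) ℝ (EuclideanSpace ℝ (Fin d))) :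
    Set (EuclideanSpace ℝ (Fin d)) :=
  (Submodule.span ℤ (Set.range b) : Set (EuclideanSpace ℝ (Fin d)))

/-- the successive minima of `K` with respect to `L` (indices `0, …, d-1`): the infimum of the
`t > 0` for which `t K` contains `i + 1` linearly independent points of `L` -/
noncomputable def minima {d : ℕ} (K L : Set (EuclideanSpace ℝ (Fin d))) (i : Fin d) : ℝ :=
  sInf {t : ℝ | 0 < t ∧ i.val + 1 ≤ Module.finrank ℝ (Submodule.span ℝ ((t • K) ∩ L))}

private theorem general (d : ℕ) (b : Module.Basis (Fin d) ℝ (EuclideanSpace ℝ (Fin d)))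
    (K : Set (EuclideanSpace ℝ (Fin d)))
    (hconv : Convex ℝ K) (hcomp : IsCompact K) (hint : (interior K).Nonempty)
    (hsymm : ∀ x ∈ K, -x ∈ K)
    (n : Fin d → ℕ) (hn : ∀ i : Fin d, ⌊2 / minima K (lattice b) i + 1⌋ ≤ (n i : ℤ))
    (hsep : ∀ i j : Fin d, j.val = i.val + 1 → j.val + 1 < d →
      1 < minima K (lattice b) j ∨ n j ∣ n i ∨ (i.val ≤ 1 ∧ n j ≤ n i) ∨
      ∃ t : ℕ, t * n j ≤ n i ∧ (i.val + 1) * (n j + n i) ≤ t * n j * (n i - n j)) :
    (K ∩ lattice b).ncard ≤ ∏ i : Fin d, n i := by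
  have hpos := Pool.Agent.Helper85.BHW.lam_pos b K hconv hcomp hint hsymm
  have hn2 : ∀ i, 2 < n i * Pool.Agent.Helper85.BHW.lam b K i := by
    intro i
    have e : minima K (lattice b) i = Pool.Agent.Helper85.BHW.lam b K i := rfl
    have hni := hn i
    rw [e] at hni
    have h1 : (2 / Pool.Agent.Helper85.BHW.lam b K i + 1) < (n i : ℝ) + 1 := by
      have h2 := Int.lt_floor_add_one (2 / Pool.Agent.Helper85.BHW.lam b K i + 1)
      have h3 : ((⌊2 / Pool.Agent.Helper85.BHW.lam b K i + 1⌋ : ℤ) : ℝ) ≤ (n i : ℝ) := by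
        exact_mod_cast hni
      linarith
    have h4 : 2 / Pool.Agent.Helper85.BHW.lam b K i < n i := by linarith
    rwa [div_lt_iff₀ (hpos i)] at h4
  exact Pool.Agent.SMG.bound b K hconv hcomp hint hsymm n hn2 hsep

/-- the inequality with the floors -/
private theorem floors0 (d : ℕ) (b : Module.Basis (Fin d) ℝ (EuclideanSpace ℝ (Fin d)))
    (K : Set (EuclideanSpace ℝ (Fin d)))
    (hconv : Convex ℝ K) (hcomp : IsCompact K) (hint : (interior K).Nonempty)
    (hsymm : ∀ x ∈ K, -x ∈ K) (f : Fin d → ℤ)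
    (hf : ∀ i, f i = ⌊2 / minima K (lattice b) i + 1⌋)
    (hsep : ∀ i j : Fin d, 2 ≤ i.val → j.val = i.val + 1 → j.val + 1 < d → ∀ p q : ℕ, 0 < p →
      p ≤ q → f i = q → f j = p → p ≤ 2 ∨ p ∣ q ∨
      ∃ t : ℕ, t * p ≤ q ∧ (i.val + 1) * (p + q) ≤ t * p * (q - p)) :
    ((K ∩ lattice b).ncard : ℤ) ≤ ∏ i : Fin d, f i := by
  have hpos : ∀ i, 0 < minima K (lattice b) i :=
    Pool.Agent.Helper85.BHW.lam_pos b K hconv hcomp hint hsymm
  have hmono : ∀ i j, i ≤ j → minima K (lattice b) i ≤ minima K (lattice b) j :=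
    fun i j hij => Pool.Agent.Helper85.BHW.lam_mono b K hconv hint hsymm hij
  have hfl : ∀ i, 1 ≤ f i := by
    intro i
    rw [hf, Int.le_floor]
    have := div_pos two_pos (hpos i)
    push_cast
    linarith
  have hanti : ∀ i j, i ≤ j → f j ≤ f i := by
    intro i j hij
    rw [hf, hf]
    apply Int.floor_le_floor
    have := div_le_div_of_nonneg_left two_pos.le (hpos i) (hmono i j hij)
    linarith
  obtain ⟨n, hn⟩ : ∃ n : Fin d → ℕ, ∀ i, (n i : ℤ) = f i :=
    ⟨fun i => (f i).toNat, fun i => Int.toNat_of_nonneg (by have := hfl i; omega)⟩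
  have h := general d b K hconv hcomp hint hsymm n (fun i => by rw [hn, hf]) (by
    intro i j hij hj
    have h1 : n j ≤ n i := by
      have := hanti i j (by
        show i.val ≤ j.val
        omega)
      rw [← hn, ← hn] at this
      exact_mod_cast this
    have hj0 : 0 < n j := by
      have := hfl j
      rw [← hn] at this
      omega
    by_cases h2 : i.val ≤ 1
    · exact Or.inr (Or.inr (Or.inl ⟨h2, h1⟩))
    · rcases hsep i j (by omega) hij hj (n j) (n i) hj0 h1 (hn i).symm (hn j).symm with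
        h3 | h3 | h3
      · left
        have h4 : f j ≤ 2 := by
          rw [← hn]
          exact_mod_cast h3
        rw [hf] at h4
        have h5 : ⌊2 / minima K (lattice b) j + 1⌋ < 3 := by omega
        rw [Int.floor_lt] at h5
        push_cast at h5
        have h6 : 2 / minima K (lattice b) j < 2 := by linarith
        rw [div_lt_iff₀ (hpos j)] at h6
        linarith
      · exact Or.inr (Or.inl h3)
      · exact Or.inr (Or.inr (Or.inr h3)))
  have h5 : ((K ∩ lattice b).ncard : ℤ) ≤ ((∏ i : Fin d, n i : ℕ) : ℤ) := by exact_mod_cast h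
  rw [Nat.cast_prod] at h5
  exact h5.trans (le_of_eq (Finset.prod_congr rfl fun i _ => hn i))

private theorem floors (d : ℕ) (b : Module.Basis (Fin d) ℝ (EuclideanSpace ℝ (Fin d)))
    (K : Set (EuclideanSpace ℝ (Fin d)))
    (hconv : Convex ℝ K) (hcomp : IsCompact K) (hint : (interior K).Nonempty)
    (hsymm : ∀ x ∈ K, -x ∈ K) (f : Fin d → ℤ)
    (hf : ∀ i, f i = ⌊2 / minima K (lattice b) i + 1⌋)
    (hsep : ∀ i j : Fin d, 2 ≤ i.val → j.val = i.val + 1 → j.val + 1 < d →
      f j ≤ 2 ∨ f i = f j ∨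
      (3 * ((i.val : ℤ) + 1) ≤ f j ∧ f j + 3 * ((i.val : ℤ) + 1) ≤ f i) ∨
      16 * f j + 9 * ((i.val : ℤ) + 1) ≤ 8 * f i) :
    ((K ∩ lattice b).ncard : ℤ) ≤ ∏ i : Fin d, f i := by
  apply floors0 d b K hconv hcomp hint hsymm f hf
  intro i j hi hij hj p q hp hpq hfi hfj
  rcases hsep i j hi hij hj with h | h | ⟨h, h'⟩ | h
  · left
    rw [hfj] at h
    exact_mod_cast h
  · right; left
    have : q = p := by
      rw [hfi, hfj] at h
      exact_mod_cast h
    rw [this]
  · right; right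
    rw [hfj] at h
    rw [hfi, hfj] at h'
    obtain ⟨t, -, -, h5, h6⟩ := Pool.Agent.SMG.good_of_add (k := i.val + 1) (p := p)
      (q := q) (Nat.succ_pos _) (by omega) (by omega)
    exact ⟨t, h5, h6⟩
  · right; right
    rw [hfi, hfj] at h
    obtain ⟨t, -, -, h5, h6⟩ := Pool.Agent.SMG.good_of_double (k := i.val + 1) (p := p)
      (q := q) (Nat.succ_pos _) hp (by omega)
    exact ⟨t, h5, h6⟩

/-- dimension five -/
private theorem five (b : Module.Basis (Fin 5) ℝ (EuclideanSpace ℝ (Fin 5)))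
    (K : Set (EuclideanSpace ℝ (Fin 5)))
    (hconv : Convex ℝ K) (hcomp : IsCompact K) (hint : (interior K).Nonempty)
    (hsymm : ∀ x ∈ K, -x ∈ K) (f : Fin 5 → ℤ)
    (hf : ∀ i, f i = ⌊2 / minima K (lattice b) i + 1⌋)
    (hsep : f 3 ≤ 2 ∨ f 2 = f 3 ∨ (9 ≤ f 3 ∧ f 3 + 9 ≤ f 2) ∨
      (2 * f 3 ≤ f 2 ∧ ¬ (f 3 = 3 ∧ (f 2 = 7 ∨ f 2 = 8)))) :
    ((K ∩ lattice b).ncard : ℤ) ≤ ∏ i : Fin 5, f i := by
  apply floors0 5 b K hconv hcomp hint hsymm f hf
  intro i j hi hij hj p q hp hpq hfi hfj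
  have hi2 : i = 2 := by
    apply Fin.ext
    show i.val = 2
    omega
  have hj3 : j = 3 := by
    apply Fin.ext
    show j.val = 3
    omega
  subst hi2 hj3
  rw [hfi, hfj] at hsep
  show p ≤ 2 ∨ p ∣ q ∨ ∃ t : ℕ, t * p ≤ q ∧ 3 * (p + q) ≤ t * p * (q - p)
  rcases hsep with h | h | ⟨h, h'⟩ | ⟨h, h'⟩
  · left
    exact_mod_cast h
  · right; left
    have : q = p := by exact_mod_cast h
    rw [this]
  · right; right
    obtain ⟨t, -, -, h5, h6⟩ := Pool.Agent.SMG.good_of_add (k := 3) (p := p)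
      (q := q) (by norm_num) (by omega) (by omega)
    exact ⟨t, h5, h6⟩
  · have hq : 2 * p ≤ q := by exact_mod_cast h
    by_cases hp2 : p ≤ 2
    · exact Or.inl hp2
    right
    by_cases h3 : p = 3
    · subst h3
      by_cases h6 : q = 6
      · left
        rw [h6]
        norm_num
      · right
        have hq9 : 9 ≤ q := by omega
        exact ⟨3, by omega, by omega⟩
    by_cases h4 : p = 4
    · subst h4
      by_cases h8 : q = 8
      · left
        rw [h8]
        norm_num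
      · right
        exact ⟨2, by omega, by omega⟩
    right
    refine ⟨2, hq, ?_⟩
    obtain ⟨e, rfl⟩ := Nat.exists_eq_add_of_le hq
    have e1 : 2 * p + e - p = p + e := by omega
    rw [e1]
    have hp5 : 5 ≤ p := by omega
    nlinarith [Nat.zero_le (p * e), Nat.zero_le e, mul_le_mul hp5 (le_refl p) (Nat.zero_le p) (Nat.zero_le p), mul_le_mul hp5 (le_refl e) (Nat.zero_le e) (Nat.zero_le p)]

/-- the inequality when the distinct numbers `2 / lam i` are at least `3 d` apart -/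
private theorem gaps (d : ℕ) (b : Module.Basis (Fin d) ℝ (EuclideanSpace ℝ (Fin d)))
    (K : Set (EuclideanSpace ℝ (Fin d)))
    (hconv : Convex ℝ K) (hcomp : IsCompact K) (hint : (interior K).Nonempty)
    (hsymm : ∀ x ∈ K, -x ∈ K)
    (h1 : ∀ i, 3 * (d : ℝ) ≤ 2 / minima K (lattice b) i)
    (h2 : ∀ i j, minima K (lattice b) i < minima K (lattice b) j →
      3 * (d : ℝ) ≤ 2 / minima K (lattice b) i - 2 / minima K (lattice b) j) :
    ((K ∩ lattice b).ncard : ℤ) ≤ ∏ i : Fin d, ⌊2 / minima K (lattice b) i + 1⌋ := by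
  refine floors d b K hconv hcomp hint hsymm _ (fun i => rfl) ?_
  intro i j hi hij hj
  have hmono : minima K (lattice b) i ≤ minima K (lattice b) j :=
    Pool.Agent.Helper85.BHW.lam_mono b K hconv hint hsymm (by
      show i.val ≤ j.val
      omega)
  rcases hmono.lt_or_eq with h | h
  · right; right; left
    have hd : (i.val : ℤ) + 1 ≤ d := by
      have := i.isLt
      omega
    have h3 : ((3 * ((i.val : ℤ) + 1) : ℤ) : ℝ) ≤ 3 * (d : ℝ) := by
      have : (((i.val : ℤ) + 1 : ℤ) : ℝ) ≤ ((d : ℤ) : ℝ) := by exact_mod_cast hd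
      push_cast at this ⊢
      linarith
    constructor
    · rw [Int.le_floor]
      have := h1 j
      linarith
    · have h4 := h2 i j h
      rw [Int.le_floor]
      have h5 := Int.floor_le (2 / minima K (lattice b) j + 1)
      push_cast at h3 ⊢
      linarith
  · right; left
    rw [h]

/-- the successive minima of a dilate -/
private theorem minima_smul {d : ℕ} (K L : Set (EuclideanSpace ℝ (Fin d))) (i : Fin d) (s : ℝ)
    (hs : 0 < s) : minima (s • K) L i = minima K L i / s := by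
  have h : {t : ℝ | 0 < t ∧ i.val + 1 ≤
      Module.finrank ℝ (Submodule.span ℝ ((t • (s • K)) ∩ L))} =
      s⁻¹ • {t : ℝ | 0 < t ∧ i.val + 1 ≤ Module.finrank ℝ (Submodule.span ℝ ((t • K) ∩ L))} := by
    ext t
    rw [Set.mem_smul_set_iff_inv_smul_mem₀ (inv_ne_zero hs.ne'), inv_inv]
    have e : t • (s • K) = (s • t) • K := by
      rw [smul_eq_mul, mul_comm s t]
      exact smul_smul t s K
    have e2 : 0 < t ↔ 0 < s • t := by
      rw [smul_eq_mul, mul_pos_iff_of_pos_left hs]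
    show (0 < t ∧ i.val + 1 ≤
      Module.finrank ℝ (Submodule.span ℝ ((t • (s • K)) ∩ L))) ↔ (0 < s • t ∧ i.val + 1 ≤
      Module.finrank ℝ (Submodule.span ℝ (((s • t) • K) ∩ L)))
    rw [e, e2]
  show sInf _ = _
  rw [h, Real.sInf_smul_of_nonneg (inv_nonneg.2 hs.le)]
  show s⁻¹ * minima K L i = _
  rw [div_eq_inv_mul]

private theorem dilates (d : ℕ) (b : Module.Basis (Fin d) ℝ (EuclideanSpace ℝ (Fin d)))
    (K : Set (EuclideanSpace ℝ (Fin d)))
    (hconv : Convex ℝ K) (hcomp : IsCompact K) (hint : (interior K).Nonempty)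
    (hsymm : ∀ x ∈ K, -x ∈ K) (t : ℝ) (ht : 0 < t)
    (h1 : ∀ i, 3 * (d : ℝ) ≤ 2 * t / minima K (lattice b) i)
    (h2 : ∀ i j, minima K (lattice b) i < minima K (lattice b) j →
      3 * (d : ℝ) ≤ 2 * t / minima K (lattice b) i - 2 * t / minima K (lattice b) j) :
    (((t • K) ∩ lattice b).ncard : ℤ) ≤ ∏ i : Fin d, ⌊2 * t / minima K (lattice b) i + 1⌋ := by
  have e : ∀ i, 2 / minima (t • K) (lattice b) i = 2 * t / minima K (lattice b) i := by
    intro i
    rw [minima_smul K _ i t ht, div_div_eq_mul_div]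
  have h := gaps d b (t • K) (hconv.smul t) (hcomp.smul t) (by
      rw [interior_smul₀ ht.ne']
      exact hint.smul_set) (by
      rintro _ ⟨x, hx, rfl⟩
      exact ⟨-x, hsymm x hx, smul_neg t x⟩) (by
      intro i
      rw [e]
      exact h1 i) (by
      intro i j hij
      rw [e, e]
      apply h2
      rw [minima_smul K _ i t ht, minima_smul K _ j t ht, div_lt_div_iff_of_pos_right ht] at hij
      exact hij)
  refine h.trans (le_of_eq (Finset.prod_congr rfl fun i _ => ?_))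
  rw [e]

/-- Let `K` be an origin-symmetric convex body in `ℝ^d`, `L` a lattice and `lam i`
(`i = 0, …, d-1`) the successive minima of `K` with respect to `L`.
(1) Let `d ≥ 5` and let `n i` be natural numbers with `n i ≥ ⌊2 / lam i + 1⌋` such that for any two
consecutive indices `i`, `j = i + 1`, where `j` is not the last index, `lam j > 1`, or `n j`
divides `n i`, or `i ≤ 1` and `n j ≤ n i`, or for some natural number `t` we have
`t * n j ≤ n i` and `(i + 1) * (n j + n i) ≤ t * n j * (n i - n j)`. Then `#(K ∩ L) ≤ ∏ i, n i`.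
(2) Let `d ≥ 5`, `f i = ⌊2 / lam i + 1⌋`. If for all `i ≥ 2`, `j = i + 1`, `j` not the last index,
`f j ≤ 2` or `f i = f j` or (`f j ≥ 3 (i + 1)` and `f i ≥ f j + 3 (i + 1)`) or
`8 f i ≥ 16 f j + 9 (i + 1)`, then `#(K ∩ L) ≤ ∏ i, f i`.
(3) Let `d = 5`. If `f 3 ≤ 2` or `f 2 = f 3` or (`f 3 ≥ 9` and `f 2 ≥ f 3 + 9`) or
(`f 2 ≥ 2 f 3`, but not `f 3 = 3`, `f 2 ∈ {7, 8}`), then `#(K ∩ L) ≤ ∏ i, f i`.
(4) Let `t > 0`. If all numbers `2 t / lam i` are at least `3 d` and any two distinct ones differ by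
at least `3 d`, then `#(t K ∩ L) ≤ ∏ i, ⌊2 t / lam i + 1⌋`.
(5) For every `K` and `L` there is a number `t0` such that this inequality holds for all
`t ≥ t0`. -/
theorem result :
    (∀ (d : ℕ) (b : Module.Basis (Fin d) ℝ (EuclideanSpace ℝ (Fin d)))
      (K : Set (EuclideanSpace ℝ (Fin d))), 5 ≤ d →
      Convex ℝ K → IsCompact K → (interior K).Nonempty → (∀ x ∈ K, -x ∈ K) →
      ∀ n : Fin d → ℕ, (∀ i : Fin d, ⌊2 / minima K (lattice b) i + 1⌋ ≤ (n i : ℤ)) →
      (∀ i j : Fin d, j.val = i.val + 1 → j.val + 1 < d →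
        1 < minima K (lattice b) j ∨ n j ∣ n i ∨ (i.val ≤ 1 ∧ n j ≤ n i) ∨
        ∃ t : ℕ, t * n j ≤ n i ∧ (i.val + 1) * (n j + n i) ≤ t * n j * (n i - n j)) →
      (K ∩ lattice b).ncard ≤ ∏ i : Fin d, n i) ∧
    (∀ (d : ℕ) (b : Module.Basis (Fin d) ℝ (EuclideanSpace ℝ (Fin d)))
      (K : Set (EuclideanSpace ℝ (Fin d))), 5 ≤ d →
      Convex ℝ K → IsCompact K → (interior K).Nonempty → (∀ x ∈ K, -x ∈ K) →
      ∀ f : Fin d → ℤ, (∀ i, f i = ⌊2 / minima K (lattice b) i + 1⌋) →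
      (∀ i j : Fin d, 2 ≤ i.val → j.val = i.val + 1 → j.val + 1 < d →
        f j ≤ 2 ∨ f i = f j ∨
        (3 * ((i.val : ℤ) + 1) ≤ f j ∧ f j + 3 * ((i.val : ℤ) + 1) ≤ f i) ∨
        16 * f j + 9 * ((i.val : ℤ) + 1) ≤ 8 * f i) →
      ((K ∩ lattice b).ncard : ℤ) ≤ ∏ i : Fin d, f i) ∧
    (∀ (b : Module.Basis (Fin 5) ℝ (EuclideanSpace ℝ (Fin 5)))
      (K : Set (EuclideanSpace ℝ (Fin 5))),
      Convex ℝ K → IsCompact K → (interior K).Nonempty → (∀ x ∈ K, -x ∈ K) →
      ∀ f : Fin 5 → ℤ, (∀ i, f i = ⌊2 / minima K (lattice b) i + 1⌋) →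
      (f 3 ≤ 2 ∨ f 2 = f 3 ∨ (9 ≤ f 3 ∧ f 3 + 9 ≤ f 2) ∨
        (2 * f 3 ≤ f 2 ∧ ¬ (f 3 = 3 ∧ (f 2 = 7 ∨ f 2 = 8)))) →
      ((K ∩ lattice b).ncard : ℤ) ≤ ∏ i : Fin 5, f i) ∧
    (∀ (d : ℕ) (b : Module.Basis (Fin d) ℝ (EuclideanSpace ℝ (Fin d)))
      (K : Set (EuclideanSpace ℝ (Fin d))),
      Convex ℝ K → IsCompact K → (interior K).Nonempty → (∀ x ∈ K, -x ∈ K) →
      ∀ t : ℝ, 0 < t → (∀ i, 3 * (d : ℝ) ≤ 2 * t / minima K (lattice b) i) →
      (∀ i j, minima K (lattice b) i < minima K (lattice b) j →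
        3 * (d : ℝ) ≤ 2 * t / minima K (lattice b) i - 2 * t / minima K (lattice b) j) →
      (((t • K) ∩ lattice b).ncard : ℤ) ≤
        ∏ i : Fin d, ⌊2 * t / minima K (lattice b) i + 1⌋) ∧
    (∀ (d : ℕ) (b : Module.Basis (Fin d) ℝ (EuclideanSpace ℝ (Fin d)))
      (K : Set (EuclideanSpace ℝ (Fin d))),
      Convex ℝ K → IsCompact K → (interior K).Nonempty → (∀ x ∈ K, -x ∈ K) →
      ∃ t0 : ℝ, ∀ t : ℝ, t0 ≤ t → (((t • K) ∩ lattice b).ncard : ℤ) ≤
        ∏ i : Fin d, ⌊2 * t / minima K (lattice b) i + 1⌋) := by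
  refine ⟨fun d b K _ h1 h2 h3 h4 n hn hs => general d b K h1 h2 h3 h4 n hn hs,
    fun d b K _ h1 h2 h3 h4 f hf hs => floors d b K h1 h2 h3 h4 f hf hs,
    fun b K h1 h2 h3 h4 f hf hs => five b K h1 h2 h3 h4 f hf hs,
    fun d b K h1 h2 h3 h4 t ht h5 h6 => dilates d b K h1 h2 h3 h4 t ht h5 h6, ?_⟩
  intro d b K hconv hcomp hint hsymm
  have hpos : ∀ i, 0 < minima K (lattice b) i :=
    Pool.Agent.Helper85.BHW.lam_pos b K hconv hcomp hint hsymm
  -- a bound for every pair
  have hex : ∀ i j : Fin d, ∃ T : ℝ, 0 < T ∧ ∀ t, T ≤ t →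
      3 * (d : ℝ) ≤ 2 * t / minima K (lattice b) i ∧
      (minima K (lattice b) i < minima K (lattice b) j →
        3 * (d : ℝ) ≤ 2 * t / minima K (lattice b) i - 2 * t / minima K (lattice b) j) := by
    intro i j
    set u := minima K (lattice b) i with hu
    set v := minima K (lattice b) j with hv
    have hu0 : 0 < u := hpos i
    have hv0 : 0 < v := hpos j
    by_cases huv : u < v
    · have hw : 0 < 1 / u - 1 / v := by
        have := one_div_lt_one_div_of_lt hu0 huv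
        linarith
      refine ⟨3 * d / (1 / u - 1 / v) + 1, by positivity, fun t ht => ?_⟩
      have h1 : 3 * (d : ℝ) ≤ t * (1 / u - 1 / v) := by
        have h2 : 3 * d / (1 / u - 1 / v) ≤ t := by linarith
        rwa [div_le_iff₀ hw] at h2
      have ht0 : 0 ≤ t := by
        have : 0 ≤ 3 * (d : ℝ) / (1 / u - 1 / v) := by positivity
        linarith
      have h3 : 2 * t / u - 2 * t / v = 2 * (t * (1 / u - 1 / v)) := by ring
      have h4 : 0 ≤ 2 * t / v := by positivity
      have h5 : (0 : ℝ) ≤ d := Nat.cast_nonneg d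
      constructor
      · linarith
      · intro _
        linarith
    · refine ⟨3 * d * u + 1, by positivity, fun t ht => ⟨?_, fun h => absurd h huv⟩⟩
      rw [le_div_iff₀ hu0]
      have : 0 ≤ 3 * (d : ℝ) * u := by positivity
      linarith
  choose T hT0 hT using hex
  refine ⟨1 + ∑ i, ∑ j, T i j, fun t ht => ?_⟩
  have hle : ∀ i j, T i j ≤ t := by
    intro i j
    have h1 : T i j ≤ ∑ j, T i j :=
      Finset.single_le_sum (f := fun j => T i j) (fun j _ => (hT0 i j).le) (Finset.mem_univ j)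
    have h2 : ∑ j, T i j ≤ ∑ i, ∑ j, T i j :=
      Finset.single_le_sum (f := fun i => ∑ j, T i j)
        (fun i _ => Finset.sum_nonneg fun j _ => (hT0 i j).le) (Finset.mem_univ i)
    linarith
  have ht0 : 0 < t := by
    have : 0 ≤ ∑ i, ∑ j, T i j :=
      Finset.sum_nonneg fun i _ => Finset.sum_nonneg fun j _ => (hT0 i j).le
    linarith
  exact dilates d b K hconv hcomp hint hsymm t ht0 (fun i => (hT i i t (hle i i)).1)
    (fun i j hij => (hT i j t (hle i j)).2 hij)

end Pool.Agent.Results.MP_98df5b_co.LargeDilates
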